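import Pool.Agent.Q7.LS.Stm

/-!
# Project LS, job RKR: the rank of the module of the relations
-/

set_option autoImplicit false
set_option linter.unusedSectionVars false

namespace Pool.Agent.Q113.LS

open NumberField IsDedekindDomain Filter Topology Finset
open Pool.Agent.Q7.LS Pool.Agent.Q7.LK

section R

variable {F : Type} [Field F] [NumberField F] {L : Type} [Field L] [NumberField L] [Algebra F L]
variable {p : ℕ}

theorem val_p_anti {P : HeightOneSpectrum (𝓞 L)} {N M : ℕ} (h : N ≤ M) :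
    P.valuation L ((p : L) ^ M) ≤ P.valuation L ((p : L) ^ N) := by
  obtain ⟨k, rfl⟩ := Nat.exists_eq_add_of_le h
  have h1 : P.valuation L ((p : L) ^ k) ≤ 1 := by
    have := P.valuation_le_one (K := L) ((p : 𝓞 L) ^ k)
    simpa using this
  rw [pow_add, map_mul]
  exact mul_le_of_le_one_right' h1

variable (p) in
/-- the units at `T` which are close to `1` -/
def NN (T : Set (HeightOneSpectrum (𝓞 F))) (N : ℕ) : Subgroup Lˣ where
  carrier := {x | (∀ v ∈ T, Un v (x : L)) ∧ Nr p T N (x : L)}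
  one_mem' := by
    refine ⟨fun v _ P _ => by simp, fun v _ P _ => ?_⟩
    simp
  mul_mem' := by
    rintro x y ⟨hx, hx'⟩ ⟨hy, hy'⟩
    refine ⟨fun v hv P hP => ?_, fun v hv P hP => ?_⟩
    · rw [Units.val_mul, map_mul, hx v hv P hP, hy v hv P hP, one_mul]
    · have e : (((x * y : Lˣ)) : L) - 1 = (x : L) * ((y : L) - 1) + ((x : L) - 1) := by
        rw [Units.val_mul]; ring
      rw [e]
      refine (Valuation.map_add _ _ _).trans (max_le ?_ (hx' v hv P hP))
      rw [map_mul, hx v hv P hP, one_mul]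
      exact hy' v hv P hP
  inv_mem' := by
    rintro x ⟨hx, hx'⟩
    refine ⟨fun v hv P hP => ?_, fun v hv P hP => ?_⟩
    · rw [Units.val_inv_eq_inv_val, map_inv₀, hx v hv P hP, inv_one]
    · have e : (((x⁻¹ : Lˣ)) : L) - 1 = -(((x⁻¹ : Lˣ)) : L) * ((x : L) - 1) := by
        have h0 : (((x⁻¹ : Lˣ)) : L) * (x : L) = 1 := by
          rw [← Units.val_mul, inv_mul_cancel, Units.val_one]
        linear_combination h0
      rw [e, map_mul, Valuation.map_neg, Units.val_inv_eq_inv_val, map_inv₀, hx v hv P hP, inv_one,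
        one_mul]
      exact hx' v hv P hP

theorem mem_NN {T : Set (HeightOneSpectrum (𝓞 F))} {N : ℕ} {x : Lˣ} :
    x ∈ NN p T N ↔ (∀ v ∈ T, Un v (x : L)) ∧ Nr p T N (x : L) := Iff.rfl

theorem NN_anti {T : Set (HeightOneSpectrum (𝓞 F))} {N M : ℕ} (h : N ≤ M) :
    NN (L := L) p T M ≤ NN p T N := by
  rintro x ⟨hx, hx'⟩
  exact ⟨hx, fun v hv P hP => (hx' v hv P hP).trans (val_p_anti h)⟩

/-- the units at `T` -/
def UT (T : Set (HeightOneSpectrum (𝓞 F))) : Subgroup Lˣ where
  carrier := {x | ∀ v ∈ T, Un v (x : L)}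
  one_mem' := fun v _ P _ => by simp
  mul_mem' := by
    intro x y hx hy v hv P hP
    rw [Units.val_mul, map_mul, hx v hv P hP, hy v hv P hP, one_mul]
  inv_mem' := by
    intro x hx v hv P hP
    rw [Units.val_inv_eq_inv_val, map_inv₀, hx v hv P hP, inv_one]

theorem mem_UT {T : Set (HeightOneSpectrum (𝓞 F))} {x : Lˣ} :
    x ∈ UT T ↔ ∀ v ∈ T, Un v (x : L) := Iff.rfl

theorem prod_mem_UT {T : Set (HeightOneSpectrum (𝓞 F))} {n : ℕ} {x : Fin n → Lˣ}
    (hx : ∀ i, x i ∈ UT T) (m : Fin n → ℤ) : ∏ i, x i ^ m i ∈ UT T :=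
  Subgroup.prod_mem _ fun i _ => Subgroup.zpow_mem _ (hx i) _

variable [Fact p.Prime]

/-- the relations in terms of single vectors -/
theorem relT_iff {T : Set (HeightOneSpectrum (𝓞 F))} {n : ℕ} {x : Fin n → Lˣ}
    (hx : ∀ i, x i ∈ UT T) {a : Fin n → ℤ_[p]} : RelT p T x a ↔
    ∀ N : ℕ, ∃ m : Fin n → ℤ, (∀ i, dist ((m i : ℤ) : ℤ_[p]) (a i) < 1 / ((N : ℝ) + 1)) ∧
      ∏ i, x i ^ m i ∈ NN p T N := by
  constructor
  · rintro ⟨m, hm, hm'⟩ N
    have h1 : ∀ᶠ k in atTop, ∀ i, dist (((m k i : ℤ)) : ℤ_[p]) (a i) < 1 / ((N : ℝ) + 1) := by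
      rw [eventually_all]
      intro i
      exact (Metric.tendsto_nhds.1 (hm i)) _ (by positivity)
    obtain ⟨k, h2, h3⟩ := (h1.and (hm' N)).exists
    exact ⟨m k, h2, prod_mem_UT hx (m k), h3⟩
  · intro h
    choose m hm hm' using h
    refine ⟨m, fun i => ?_, fun N => ?_⟩
    · rw [tendsto_iff_dist_tendsto_zero]
      refine squeeze_zero (fun _ => dist_nonneg) (fun k => (hm k i).le) ?_
      exact tendsto_one_div_add_atTop_nhds_zero_nat
    · filter_upwards [eventually_ge_atTop N] with k hk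
      exact (NN_anti hk (hm' k)).2

theorem exists_int_dist (c : ℤ_[p]) {ε : ℝ} (hε : 0 < ε) : ∃ u : ℤ, dist ((u : ℤ) : ℤ_[p]) c < ε := by
  obtain ⟨u, hu⟩ := PadicInt.denseRange_natCast (p := p) |>.exists_dist_lt c hε
  exact ⟨u, by rw [dist_comm]; simpa using hu⟩

/-- the module of the relations -/
noncomputable def RR {T : Set (HeightOneSpectrum (𝓞 F))} {n : ℕ} {x : Fin n → Lˣ}
    (hx : ∀ i, x i ∈ UT T) : Submodule ℤ_[p] (Fin n → ℤ_[p]) where
  carrier := {a | RelT p T x a}
  zero_mem' := by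
    change RelT p T x 0
    rw [relT_iff hx]
    intro N
    refine ⟨0, fun i => ?_, ?_⟩
    · simp only [Pi.zero_apply, Int.cast_zero, dist_self]
      positivity
    · simp only [Pi.zero_apply, zpow_zero, Finset.prod_const_one]
      exact Subgroup.one_mem _
  add_mem' := by
    intro a b ha hb
    change RelT p T x (a + b)
    have ha' : RelT p T x a := ha
    have hb' : RelT p T x b := hb
    rw [relT_iff hx] at ha' hb' ⊢
    intro N
    obtain ⟨m, hm, hm'⟩ := ha' N
    obtain ⟨l, hl, hl'⟩ := hb' N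
    refine ⟨m + l, fun i => ?_, ?_⟩
    · have h1 := hm i
      have h2 := hl i
      rw [dist_eq_norm] at h1 h2 ⊢
      have e : (((m + l) i : ℤ) : ℤ_[p]) - (a + b) i =
          (((m i : ℤ) : ℤ_[p]) - a i) + (((l i : ℤ) : ℤ_[p]) - b i) := by
        simp only [Pi.add_apply, Int.cast_add]; ring
      rw [e]
      exact (PadicInt.nonarchimedean _ _).trans_lt (max_lt h1 h2)
    · have e : ∏ i, x i ^ (m + l) i = (∏ i, x i ^ m i) * ∏ i, x i ^ l i := by
        rw [← Finset.prod_mul_distrib]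
        exact Finset.prod_congr rfl fun i _ => by rw [Pi.add_apply, zpow_add]
      rw [e]
      exact Subgroup.mul_mem _ hm' hl'
  smul_mem' := by
    intro c a ha
    change RelT p T x (c • a)
    have ha' : RelT p T x a := ha
    rw [relT_iff hx] at ha' ⊢
    intro N
    obtain ⟨m, hm, hm'⟩ := ha' N
    obtain ⟨u, hu⟩ := exists_int_dist c (ε := 1 / ((N : ℝ) + 1)) (by positivity)
    refine ⟨fun i => u * m i, fun i => ?_, ?_⟩
    · have h1 := hm i
      rw [dist_eq_norm] at h1 hu ⊢
      have e : (((u * m i : ℤ)) : ℤ_[p]) - (c • a) i =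
          (u : ℤ_[p]) * (((m i : ℤ) : ℤ_[p]) - a i) + (((u : ℤ_[p])) - c) * a i := by
        simp only [Pi.smul_apply, smul_eq_mul, Int.cast_mul]; ring
      rw [e]
      refine (PadicInt.nonarchimedean _ _).trans_lt (max_lt ?_ ?_)
      · rw [norm_mul]
        exact (mul_le_of_le_one_left (norm_nonneg _) (PadicInt.norm_le_one _)).trans_lt h1
      · rw [norm_mul]
        exact (mul_le_of_le_one_right (norm_nonneg _) (PadicInt.norm_le_one _)).trans_lt hu
    · have e : ∏ i, x i ^ (u * m i) = (∏ i, x i ^ m i) ^ u := by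
        rw [← Finset.prod_zpow]
        exact Finset.prod_congr rfl fun i _ => by rw [mul_comm, zpow_mul]
      rw [e]
      exact Subgroup.zpow_mem _ hm' _

theorem mem_RR {T : Set (HeightOneSpectrum (𝓞 F))} {n : ℕ} {x : Fin n → Lˣ}
    {hx : ∀ i, x i ∈ UT T} {a : Fin n → ℤ_[p]} : a ∈ RR hx ↔ RelT p T x a := Iff.rfl

/-- extension by zero of a relation between some of the elements -/
theorem relT_extend {T : Set (HeightOneSpectrum (𝓞 F))} {n e : ℕ} {x : Fin n → Lˣ}
    (hx : ∀ i, x i ∈ UT T) {ι : Fin e → Fin n} (hι : Function.Injective ι) {a : Fin e → ℤ_[p]}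
    (ha : RelT p T (x ∘ ι) a) : RelT p T x (Function.extend ι a 0) := by
  rw [relT_iff hx]
  rw [relT_iff (x := x ∘ ι) (fun i => hx (ι i))] at ha
  intro N
  obtain ⟨m, hm, hm'⟩ := ha N
  refine ⟨Function.extend ι m 0, fun i => ?_, ?_⟩
  · by_cases hi : ∃ j, ι j = i
    · obtain ⟨j, rfl⟩ := hi
      rw [hι.extend_apply, hι.extend_apply]
      exact hm j
    · rw [Function.extend_apply' _ _ _ hi, Function.extend_apply' _ _ _ hi]
      simp only [Pi.zero_apply, Int.cast_zero, dist_self]
      positivity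
  · have e1 : ∏ j, (x ∘ ι) j ^ m j = ∏ i, x i ^ (Function.extend ι m 0 i) := by
      refine Fintype.prod_of_injective ι hι _ _ ?_ ?_
      · intro i hi
        rw [Function.extend_apply' _ _ _ (by simpa using hi)]
        simp
      · intro j
        rw [hι.extend_apply]
        rfl
    rw [← e1]
    exact hm'

end R

/-- **Linear algebra.** If for all `e + 1` coordinates the module `R` contains a nonzero vector supported on them, then `R` has `n - e`
independent elements. -/
theorem exchange {p : ℕ} [Fact p.Prime] {n e : ℕ} (R : Submodule ℤ_[p] (Fin n → ℤ_[p]))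
    (h : ∀ ι : Fin (e + 1) → Fin n, Function.Injective ι → ∃ a : Fin (e + 1) → ℤ_[p], a ≠ 0 ∧
      Function.extend ι a 0 ∈ R) :
    ∃ a : Fin (n - e) → Fin n → ℤ_[p], LinearIndependent ℤ_[p] a ∧ ∀ j, a j ∈ R := by
  classical
  set b := Module.finBasis ℤ_[p] R with hb
  by_cases hr : n - e ≤ Module.finrank ℤ_[p] R
  · refine ⟨fun j => (b (Fin.castLE hr j) : Fin n → ℤ_[p]), ?_, fun j => (b _).2⟩
    have h1 : LinearIndependent ℤ_[p] (fun j => b (Fin.castLE hr j)) :=
      b.linearIndependent.comp _ (Fin.castLE_injective hr)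
    exact h1.map' R.subtype (Submodule.ker_subtype R)
  · exfalso
    push Not at hr
    -- the coordinate-wise embedding
    let g : (Fin n → ℤ_[p]) → (Fin n → ℚ_[p]) := fun a i => ((a i : ℤ_[p]) : ℚ_[p])
    let U : Submodule ℚ_[p] (Fin n → ℚ_[p]) := Submodule.span ℚ_[p] (Set.range fun j => g (b j))
    have hU : Module.finrank ℚ_[p] U ≤ Module.finrank ℤ_[p] R := by
      refine (finrank_range_le_card (R := ℚ_[p]) (fun j => g (b j))).trans ?_
      simp
    have hRU : ∀ a ∈ R, g a ∈ U := by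
      intro a ha
      have h1 := b.sum_repr ⟨a, ha⟩
      have h2 : a = ∑ j, (b.repr ⟨a, ha⟩ j) • (b j : Fin n → ℤ_[p]) := by
        have h3 : (((∑ j, b.repr ⟨a, ha⟩ j • b j : R)) : Fin n → ℤ_[p]) = a := congrArg Subtype.val h1
        refine h3.symm.trans ?_
        rw [Submodule.coe_sum]
        rfl
      have h3 : g a = ∑ j, ((b.repr ⟨a, ha⟩ j : ℤ_[p]) : ℚ_[p]) • g (b j) := by
        funext i
        have h4 := congrFun h2 i
        change ((a i : ℤ_[p]) : ℚ_[p]) = _
        rw [h4]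
        simp only [Finset.sum_apply, Pi.smul_apply, smul_eq_mul, g]
        refine (map_sum (PadicInt.Coe.ringHom (p := p)) _ _).trans ?_
        exact Finset.sum_congr rfl fun j _ => map_mul (PadicInt.Coe.ringHom (p := p)) _ _
      rw [h3]
      exact Submodule.sum_mem _ fun j _ => Submodule.smul_mem _ _ (Submodule.subset_span ⟨j, rfl⟩)
    let w : Fin n → (Fin n → ℚ_[p]) ⧸ U := fun i => U.mkQ (Pi.single i 1)
    obtain ⟨κ, c, hc, hspan, hli⟩ := exists_linearIndependent' ℚ_[p] w
    have hfin : Finite κ := Finite.of_injective c hc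
    have : Fintype κ := Fintype.ofFinite κ
    have htop : Submodule.span ℚ_[p] (Set.range w) = ⊤ := by
      have h1 : Set.range w = U.mkQ '' (Set.range fun i : Fin n => (Pi.single i 1 : Fin n → ℚ_[p])) := by
        rw [← Set.range_comp]
        rfl
      have h2 : Submodule.span ℚ_[p] (Set.range fun i : Fin n => (Pi.single i 1 : Fin n → ℚ_[p])) = ⊤ := by
        have h3 := (Pi.basisFun ℚ_[p] (Fin n)).span_eq
        rw [← h3]
        congr 1
        ext x
        simp [Pi.basisFun_apply]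
      rw [h1, Submodule.span_image, h2, Submodule.map_top, Submodule.range_mkQ]
    have hcard : Module.finrank ℚ_[p] ((Fin n → ℚ_[p]) ⧸ U) = Fintype.card κ := by
      rw [htop] at hspan
      exact (Module.finrank_eq_card_basis (Module.Basis.mk hli hspan.ge))
    have hdim := U.finrank_quotient_add_finrank
    rw [Module.finrank_fin_fun] at hdim
    have hle : e + 1 ≤ Fintype.card κ := by omega
    obtain ⟨f, hf⟩ : ∃ f : Fin (e + 1) → κ, Function.Injective f := by
      obtain ⟨f⟩ := Function.Embedding.nonempty_of_card_le (α := Fin (e + 1)) (β := κ) (by simpa using hle)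
      exact ⟨f, f.injective⟩
    obtain ⟨a, ha0, haR⟩ := h (c ∘ f) (hc.comp hf)
    have h1 := hRU _ haR
    have h2 : g (Function.extend (c ∘ f) a 0) = ∑ j, ((a j : ℤ_[p]) : ℚ_[p]) • (Pi.single (c (f j)) 1 : Fin n → ℚ_[p]) := by
      have e1 : ∑ j, ((a j : ℤ_[p]) : ℚ_[p]) • (Pi.single (c (f j)) 1 : Fin n → ℚ_[p]) =
          ∑ i, (g (Function.extend (c ∘ f) a 0) i) • (Pi.single i 1 : Fin n → ℚ_[p]) := by
        refine Fintype.sum_of_injective (c ∘ f) (hc.comp hf) _ _ ?_ ?_
        · intro i hi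
          have : g (Function.extend (c ∘ f) a 0) i = 0 := by
            change ((Function.extend (c ∘ f) a 0 i : ℤ_[p]) : ℚ_[p]) = 0
            rw [Function.extend_apply' _ _ _ (by simpa using hi)]
            simp
          rw [this, zero_smul]
        · intro j
          have : g (Function.extend (c ∘ f) a 0) ((c ∘ f) j) = ((a j : ℤ_[p]) : ℚ_[p]) := by
            change ((Function.extend (c ∘ f) a 0 ((c ∘ f) j) : ℤ_[p]) : ℚ_[p]) = _
            rw [(hc.comp hf).extend_apply]
          rw [this]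
          rfl
      rw [e1]
      funext i
      simp [Finset.sum_apply, Pi.single_apply]
    have h3 : ∑ j, ((a j : ℤ_[p]) : ℚ_[p]) • (w ∘ c ∘ f) j = 0 := by
      have h4 : U.mkQ (g (Function.extend (c ∘ f) a 0)) = 0 := by
        rw [Submodule.mkQ_apply, Submodule.Quotient.mk_eq_zero]
        exact h1
      rw [h2, map_sum] at h4
      rw [← h4]
      exact Finset.sum_congr rfl fun j _ => by rw [map_smul]; rfl
    have h5 : LinearIndependent ℚ_[p] (w ∘ c ∘ f) := hli.comp f hf
    have h6 := Fintype.linearIndependent_iff.1 h5 _ h3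
    refine ha0 (funext fun j => ?_)
    exact Subtype.ext (h6 j)

/-- **Job RKR.** -/
theorem rkr : S_RKR := by
  intro p _ F L _ _ _ _ _ T _ n e θ hθ h
  have hθ' : ∀ i, θ i ∈ UT T := hθ
  exact exchange (RR hθ') fun ι hι => by
    obtain ⟨a, ha0, ha⟩ := h ι hι
    exact ⟨a, ha0, relT_extend hθ' hι ha⟩

end Pool.Agent.Q113.LS
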